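import Pool.Agent.Helper69.MD.Defs

/-!
# SM: the Steiner polynomial of a polytope and a strictly convex body: definitions

The volume of `K + t L` is a polynomial in `t` for a polytope `K` and a strictly convex body `L`; the
body `L` is given by its gauge `g`.
-/

set_option autoImplicit false
namespace Pool.Agent.Helper37.SM
open MeasureTheory Metric
open scoped ENNReal Pointwise

variable {E : Type*} [NormedAddCommGroup E] [InnerProductSpace ℝ E]

/-- A continuous, positive, sublinear and strictly convex function. -/
structure Gauge (g : E → ℝ) : Prop where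
  cont : Continuous g
  pos : ∀ x, x ≠ 0 → 0 < g x
  add : ∀ x y, g (x + y) ≤ g x + g y
  smul : ∀ (c : ℝ) x, 0 ≤ c → g (c • x) = c * g x
  strict : ∀ x y, x ≠ y → g x = g y → g ((1 / 2 : ℝ) • (x + y)) < g x

/-- `x` is a point of `K` nearest to `x + w`. -/
def Near (K : Set E) (g : E → ℝ) (x w : E) : Prop := x ∈ K ∧ ∀ k ∈ K, g w ≤ g (x + w - k)

/-- The segment from `x'` to `x` can be prolonged beyond `x` inside `K`. -/
def Rel (K : Set E) (x x' : E) : Prop := ∃ e : ℝ, 0 < e ∧ x + e • (x - x') ∈ K

open Classical in
/-- The points `a` of `A` from which `x` can be left inside the convex hull of `A`. -/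
noncomputable def ty (A : Finset E) (x : E) : Finset E :=
  A.filter fun a => Rel (convexHull ℝ (A : Set E)) x a

/-- The directions `v` for which `x ± e v` lies in `K` for some `e > 0`. -/
def dset (K : Set E) (x : E) : Set E :=
  {v | ∃ e : ℝ, 0 < e ∧ x + e • v ∈ K ∧ x - e • v ∈ K}

/-- The cone of all `w` such that `x` is a point of `K` nearest to `x + w`. -/
def ncone (K : Set E) (g : E → ℝ) (x : E) : Set E := {w | Near K g x w}

end Pool.Agent.Helper37.SM
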